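import Pool.Agent.Q44.BM.Sys

/-!
# The count in a box
-/

set_option autoImplicit false
set_option linter.unusedSectionVars false

open scoped Classical

namespace Q44.BM

open Finset Module
open Pool.Agent.Y703.CQ (nr sg prs HB ext)
open Pool.Agent.Y657.CQ (HB_sub)
open Q44.BC

variable {Φ : Fam} {G F : Type} [AddCommGroup G] [Module (ZMod 2) G] [AddCommGroup F]
    [Module (ZMod 2) F]

/-- the system is not degenerate -/
structure Sys.Good (σ : Sys Φ G F) {I : Type} (cl : I → ℕ → Prop) : Prop where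
  E0 : ∀ p, Φ.E p → σ.h p = 0
  span : ∀ l : F →ₗ[ZMod 2] ZMod 2, l ≠ 0 → ∃ i, ∀ p, cl i p → Φ.A p ∧ l (σ.h p) ≠ 0
  lg : ∀ g e, (g, e) ∈ σ.𝓛 → σ.χ g = 0 → g = 0
  pas : ∃ i, ∀ p, cl i p → ¬ Φ.A p
  neg : ∃ i, ∀ p, cl i p → Φ.A p ∧ σ.v (σ.h p) ≠ 0

theorem card_im {ι : Type} [Fintype ι] {p : ι → ℕ} (hp : Function.Injective p) (w : ℕ → Prop) :
    ((univ.image p).filter fun q => w q).card = (univ.filter fun i => w (p i)).card := by
  have h2 : (univ.image p).filter (fun q => w q) = (univ.filter fun i => w (p i)).image p := by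
    ext q
    simp only [Finset.mem_filter, Finset.mem_image, Finset.mem_univ, true_and]
    constructor
    · rintro ⟨⟨i, rfl⟩, h⟩
      exact ⟨i, h, rfl⟩
    · rintro ⟨i, hi, rfl⟩
      exact ⟨⟨i, rfl⟩, hi⟩
  rw [h2, Finset.card_image_of_injective _ hp]

section one

variable {ι : Type} [Fintype ι] [LinearOrder ι] {I : Type} {cl : I → ℕ → Prop}
  {S₀ : Finset ℕ} {J1 : Finset ι} {p : ι → ℕ} {R : ℕ}

theorem Sys.D_ok (σ : Sys Φ G F) (hσ : σ.Good cl)
    (hpr : ∀ i, (p i).Prime ∧ p i ≠ 2) (hp : Function.Injective p) (hd : ∀ i, p i ∉ S₀)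
    (hJ : ∀ i, i ∈ J1 ↔ Φ.A (p i)) (h : NdC Φ cl (R + 1) S₀ (univ.image p)) :
    (σ.D S₀ J1 p).Ok := by
  refine ⟨fun u k hk => ?_, fun μ l hμ => ?_, hσ.lg⟩
  · have hu := mem_filter.1 u.2
    show nr u (p k) = nr (p k) u + σ.v (σ.h u) * σ.v (σ.h (p k))
    rw [σ.hv _ hu.2, σ.hv _ ((hJ k).1 hk)]
    exact nr_rec (Φ.hA _ hu.2).1 (Φ.hA _ hu.2).2 (hpr k).1 (hpr k).2 fun he => hd k (he ▸ hu.1)
  · have hμ' : ∀ k, Φ.A (p k) → ∑ u : UU Φ S₀, μ u * nr (p k) u + l (σ.h (p k)) = 0 :=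
      fun k hk => hμ k ((hJ k).2 hk)
    have h1 : μ = 0 := by
      by_contra hne
      obtain ⟨u, hu⟩ := Function.ne_iff.1 hne
      set w : ℕ → ZMod 2 := fun n => if h : n ∈ S₀.filter (fun u => Φ.A u) then μ ⟨n, h⟩ else 0
        with hw
      have hwu : ∀ u : UU Φ S₀, w u = μ u := by
        intro u
        simp only [hw]
        rw [dif_pos u.2]
      obtain ⟨q, hq, hqE, hq2⟩ := h.1 w ⟨u, (mem_filter.1 u.2).1, (mem_filter.1 u.2).2, by
        rw [hwu]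
        exact hu⟩
      obtain ⟨k, -, rfl⟩ := Finset.mem_image.1 hq
      apply hq2
      have h2 := hμ' k (Φ.hE _ hqE)
      rw [hσ.E0 _ hqE, map_zero, add_zero] at h2
      rw [← h2, ← Finset.sum_coe_sort (S₀.filter fun u => Φ.A u)]
      exact sum_congr rfl fun u _ => by rw [hwu]
    refine ⟨h1, ?_⟩
    by_contra hne
    obtain ⟨i, hi⟩ := hσ.span l hne
    have h2 := h.2 i
    rw [card_im hp] at h2
    have h3 : 0 < (univ.filter fun k => cl i (p k)).card := by omega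
    obtain ⟨k, hk⟩ := Finset.card_pos.1 h3
    obtain ⟨h4, h5⟩ := hi _ (mem_filter.1 hk).2
    apply h5
    have h6 := hμ' k h4
    rw [h1] at h6
    simpa using h6

theorem Sys.D_pas (σ : Sys Φ G F) (hσ : σ.Good cl) (hp : Function.Injective p)
    (hJ : ∀ i, i ∈ J1 ↔ Φ.A (p i)) (h : NdC Φ cl (R + 1) S₀ (univ.image p)) :
    ∃ l, l ∉ (σ.D S₀ J1 p).J1 := by
  obtain ⟨i, hi⟩ := hσ.pas
  have h2 := h.2 i
  rw [card_im hp] at h2
  have h3 : 0 < (univ.filter fun k => cl i (p k)).card := by omega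
  obtain ⟨k, hk⟩ := Finset.card_pos.1 h3
  exact ⟨k, fun hk' => hi _ (mem_filter.1 hk).2 ((hJ k).1 hk')⟩

theorem Sys.D_neg (σ : Sys Φ G F) (hσ : σ.Good cl) (hp : Function.Injective p)
    (hJ : ∀ i, i ∈ J1 ↔ Φ.A (p i)) (h : NdC Φ cl (R + 1) S₀ (univ.image p)) :
    2 * Fintype.card (UU Φ S₀) + R ≤ (σ.D S₀ J1 p).J3.card := by
  obtain ⟨i, hi⟩ := hσ.neg
  have h2 := h.2 i
  rw [card_im hp] at h2
  have h3 : (univ.filter fun k => cl i (p k)) ⊆ (σ.D S₀ J1 p).J3 := by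
    intro k hk
    obtain ⟨h4, h5⟩ := hi _ (mem_filter.1 hk).2
    exact mem_filter.2 ⟨(hJ k).2 h4, h5⟩
  have h4 := Finset.card_le_card h3
  have h5 : Fintype.card (UU Φ S₀) ≤ S₀.card := by
    rw [Fintype.card_coe]
    exact Finset.card_filter_le _ _
  omega

end one

/-- the full label -/
noncomputable def lab {Λ : Type} (lb : ℕ → Λ) (S₀ : Finset ℕ) (x : ℕ) :
    (S₀ → ZMod 2) × (S₀ → ZMod 2) × Λ := (fun u => nr u x, fun u => nr x u, lb x)

/-- the label determines everything -/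
def Lb (σ : Sys Φ G F) {I : Type} (cl : I → ℕ → Prop) {Λ H' : Type} (lb : ℕ → Λ) (H : ℕ → H') :
    Prop := ∀ p q, Φ.P p → Φ.P q → lb p = lb q → σ.h p = σ.h q ∧ σ.f p = σ.f q ∧
      (Φ.E p ↔ Φ.E q) ∧ (∀ i, cl i p ↔ cl i q) ∧ H p = H q

section two

variable {ι : Type} [Fintype ι] [LinearOrder ι] {I : Type} {cl : I → ℕ → Prop}
  {S₀ : Finset ℕ} {J1 : Finset ι} {p p' : ι → ℕ} {R : ℕ} {σ : Sys Φ G F} {Λ H' : Type}
  {lb : ℕ → Λ} {H : ℕ → H'}

theorem NdC_lab (hL : Lb σ cl lb H) (hP : ∀ i, Φ.P (p i)) (hP' : ∀ i, Φ.P (p' i))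
    (hp : Function.Injective p) (hp' : Function.Injective p')
    (he : ∀ i, lab lb S₀ (p i) = lab lb S₀ (p' i)) (h : NdC Φ cl R S₀ (univ.image p)) :
    NdC Φ cl R S₀ (univ.image p') := by
  have hl : ∀ i, lb (p i) = lb (p' i) := fun i => congrArg (fun t => t.2.2) (he i)
  have hn : ∀ i, ∀ u ∈ S₀, nr (p i) u = nr (p' i) u := fun i u hu =>
    congrFun (congrArg (fun t => t.2.1) (he i)) ⟨u, hu⟩
  refine ⟨fun w hw => ?_, fun i => ?_⟩
  · obtain ⟨q, hq, hE, hs⟩ := h.1 w hw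
    obtain ⟨k, -, rfl⟩ := Finset.mem_image.1 hq
    refine ⟨p' k, mem_image_of_mem _ (mem_univ _), ((hL _ _ (hP k) (hP' k) (hl k)).2.2.1).1 hE, ?_⟩
    intro h0
    apply hs
    rw [← h0]
    exact sum_congr rfl fun u hu => by rw [hn k u (mem_filter.1 hu).1]
  · have h1 := h.2 i
    rw [card_im hp] at h1
    rw [card_im hp']
    refine h1.trans (le_of_eq ?_)
    congr 1
    refine filter_congr fun k _ => ?_
    exact (hL _ _ (hP k) (hP' k) (hl k)).2.2.2.1 i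

theorem So_congr {U : Type} [Fintype U] (A : U → U → ZMod 2) {B B' : U → ι → ZMod 2}
    {C C' : ι → U → ZMod 2} {f f' : U → ZMod 2} {g g' : ι → ZMod 2} (hU : U → F) {hJ hJ' : ι → F}
    (v : F →ₗ[ZMod 2] ZMod 2) (χ : G →ₗ[ZMod 2] F →ₗ[ZMod 2] ZMod 2)
    (𝓛 : Submodule (ZMod 2) (G × F)) (hB : B = B') (hC : C = C') (hf : f = f') (hg : g = g')
    (hh : hJ = hJ') (α : prs J1 → ZMod 2) :
    finrank (ZMod 2) ((⟨J1, A, B, C, f, g, hU, hJ, v, χ, 𝓛⟩ : Dt U ι G F).So α) =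
      finrank (ZMod 2) ((⟨J1, A, B', C', f', g', hU, hJ', v, χ, 𝓛⟩ : Dt U ι G F).So α) := by
  subst hB hC hf hg hh
  rfl

theorem D_lab (hL : Lb σ cl lb H) (hP : ∀ i, Φ.P (p i)) (hP' : ∀ i, Φ.P (p' i))
    (he : ∀ i, lab lb S₀ (p i) = lab lb S₀ (p' i)) (α : prs J1 → ZMod 2) :
    finrank (ZMod 2) ((σ.D S₀ J1 p).So α) = finrank (ZMod 2) ((σ.D S₀ J1 p').So α) := by
  have hl : ∀ i, lb (p i) = lb (p' i) := fun i => congrArg (fun t => t.2.2) (he i)
  have hn : ∀ i, ∀ u ∈ S₀, nr (p i) u = nr (p' i) u := fun i u hu =>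
    congrFun (congrArg (fun t => t.2.1) (he i)) ⟨u, hu⟩
  have hn' : ∀ i, ∀ u ∈ S₀, nr u (p i) = nr u (p' i) := fun i u hu =>
    congrFun (congrArg (fun t => t.1) (he i)) ⟨u, hu⟩
  refine So_congr _ _ _ _ _ ?_ ?_ ?_ ?_ ?_ α
  · funext u k
    exact hn' k u (mem_filter.1 u.2).1
  · funext k u
    exact hn k u (mem_filter.1 u.2).1
  · funext u
    congr 1
    exact sum_congr rfl fun l _ => hn' l u (mem_filter.1 u.2).1
  · funext k
    rw [(hL _ _ (hP k) (hP' k) (hl k)).2.1]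
    congr 1
    exact sum_congr rfl fun w hw => hn k w (mem_filter.1 hw).1
  · funext k
    exact (hL _ _ (hP k) (hP' k) (hl k)).1

theorem GT_lab [AddCommGroup H'] (hL : Lb σ cl lb H) (hP : ∀ i, Φ.P (p i)) (hP' : ∀ i, Φ.P (p' i))
    (hp : Function.Injective p) (hp' : Function.Injective p') (hd : ∀ i, p i ∉ S₀)
    (hd' : ∀ i, p' i ∉ S₀)
    (he : ∀ i, lab lb S₀ (p i) = lab lb S₀ (p' i)) :
    ∑ q ∈ S₀ ∪ univ.image p, H q = ∑ q ∈ S₀ ∪ univ.image p', H q := by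
  have hl : ∀ i, lb (p i) = lb (p' i) := fun i => congrArg (fun t => t.2.2) (he i)
  have key : ∀ p : ι → ℕ, Function.Injective p → (∀ i, p i ∉ S₀) →
      ∑ q ∈ S₀ ∪ univ.image p, H q = ∑ q ∈ S₀, H q + ∑ i, H (p i) := by
    intro p hp hd
    have hdis : Disjoint S₀ (univ.image p) := by
      rw [Finset.disjoint_left]
      intro x hx hx'
      obtain ⟨i, -, rfl⟩ := Finset.mem_image.1 hx'
      exact hd i hx
    rw [Finset.sum_union hdis, Finset.sum_image fun i _ j _ hij => hp hij]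
  rw [key p hp hd, key p' hp' hd']
  congr 1
  exact sum_congr rfl fun i _ => (hL _ _ (hP i) (hP' i) (hl i)).2.2.2.2

end two

/-- **The count in a box.** -/
theorem t_BX [Finite G] [Finite F] {I : Type} {cl : I → ℕ → Prop} (σ : Sys Φ G F)
    (hσ : σ.Good cl) {t : ℝ} (ht : 0 < t) (hcard : (Nat.card σ.𝓛 : ℝ) = t * Nat.card F) (r : ℕ)
    {Λ H' : Type} [Fintype Λ] [AddCommGroup H'] {lb : ℕ → Λ} {H : ℕ → H'} (c₀ : H')
    (hL : Lb σ cl lb H) {ε : ℝ} (hε : 0 < ε) :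
    ∃ R, BX Φ cl (GT H c₀) (fun S => finrank (ZMod 2) (σ.Sel S) = r) (lam t r) ε
      (Fintype.card Λ) R := by
  obtain ⟨R₀, hLA⟩ := t_LAB G F ht r hε
  obtain ⟨Gd, hGd⟩ : ∃ Gd : Finset ℕ → Prop, Gd = fun S => finrank (ZMod 2) (σ.Sel S) = r :=
    ⟨_, rfl⟩
  rw [← hGd]
  have hGd' : ∀ S, Gd S ↔ finrank (ZMod 2) (σ.Sel S) = r := fun S => by rw [hGd]
  refine ⟨R₀ + 1, ?_⟩
  intro ι _ _ J1 C X κ S₀ hκ hCX hHB hS₀ hC hdis
  set R : ℝ := 2 ^ (prs J1).card * (κ * ∏ j, (X j : ℝ)) with hR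
  have hR0 : 0 ≤ R := mul_nonneg (by positivity)
    (mul_nonneg hκ (Finset.prod_nonneg fun j _ => by positivity))
  -- facts on tuples
  have hinj : ∀ p ∈ Fintype.piFinset C, Function.Injective p := by
    intro p hp i j hij
    rw [Fintype.mem_piFinset] at hp
    by_contra hne
    have h1 := Finset.disjoint_left.1 (hdis i j hne) (hp i)
    rw [hij] at h1
    exact h1 (hp j)
  have hJ : ∀ p ∈ Fintype.piFinset C, ∀ i, i ∈ J1 ↔ Φ.A (p i) := by
    intro p hp i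
    rw [Fintype.mem_piFinset] at hp
    exact (hC i _ (hp i)).2.2
  have hd : ∀ p ∈ Fintype.piFinset C, ∀ i, p i ∉ S₀ := by
    intro p hp i
    rw [Fintype.mem_piFinset] at hp
    exact (hC i _ (hp i)).2.1
  have hP : ∀ p ∈ Fintype.piFinset C, ∀ i, Φ.P (p i) := by
    intro p hp i
    rw [Fintype.mem_piFinset] at hp
    exact (hC i _ (hp i)).1
  have hpr : ∀ p ∈ Fintype.piFinset C, ∀ i, (p i).Prime ∧ p i ≠ 2 := fun p hp i =>
    ⟨(hP p hp i).prime, Fam.ne_two (hP p hp i)⟩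
  have hgd : ∀ p ∈ Fintype.piFinset C, (Gd (S₀ ∪ univ.image p) ↔
      finrank (ZMod 2) ((σ.D S₀ J1 p).So fun e => nr (p e.1.1) (p e.1.2)) = r) := by
    intro p hp
    rw [hGd', σ.finrank_Sel (hpr p hp) (hinj p hp) (hd p hp) (hJ p hp)]
  -- the part with given labels
  obtain ⟨T, hT⟩ : ∃ T : (ι → ℕ) → Prop, ∀ p, T p ↔ (NdC Φ cl (R₀ + 1) S₀ (univ.image p) ∧
      GT H c₀ (S₀ ∪ univ.image p)) := ⟨_, fun _ => Iff.rfl⟩
  have h1 : ∀ β : ι → (S₀ → ZMod 2) × (S₀ → ZMod 2) × Λ,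
      |(((Fintype.piFinset C).filter fun p => (fun i => lab lb S₀ (p i)) = β ∧
          (T p ∧ Gd (S₀ ∪ univ.image p))).card : ℝ) -
        lam t r * (((Fintype.piFinset C).filter fun p =>
          (fun i => lab lb S₀ (p i)) = β ∧ T p).card : ℝ)| ≤
      ε * (((Fintype.piFinset C).filter fun p => (fun i => lab lb S₀ (p i)) = β ∧
        NdC Φ cl (R₀ + 1) S₀ (univ.image p)).card : ℝ) + R := by
    intro β
    by_cases hemp : ((Fintype.piFinset C).filter fun p => (fun i => lab lb S₀ (p i)) = β ∧ T p) = ∅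
    · have he2 : ((Fintype.piFinset C).filter fun p => (fun i => lab lb S₀ (p i)) = β ∧
          (T p ∧ Gd (S₀ ∪ univ.image p))) = ∅ := by
        rw [Finset.filter_eq_empty_iff] at hemp ⊢
        intro p hp h
        exact hemp hp ⟨h.1, h.2.1⟩
      rw [he2, hemp]
      simp only [Finset.card_empty, Nat.cast_zero, mul_zero, sub_zero, abs_zero]
      positivity
    obtain ⟨p₀, hp₀⟩ := Finset.nonempty_iff_ne_empty.2 hemp
    rw [Finset.mem_filter] at hp₀
    obtain ⟨hp₀, hp₀β, hp₀T⟩ := hp₀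
    set C' : ι → Finset ℕ := fun i => (C i).filter fun q => lab lb S₀ q = β i with hC'
    have hpi : (Fintype.piFinset C).filter (fun p => (fun i => lab lb S₀ (p i)) = β) =
        Fintype.piFinset C' := by
      ext p
      simp only [Finset.mem_filter, Fintype.mem_piFinset, hC']
      constructor
      · rintro ⟨h2, h3⟩ i
        exact ⟨h2 i, congrFun h3 i⟩
      · intro h2
        exact ⟨fun i => (h2 i).1, funext fun i => (h2 i).2⟩
    have hlab : ∀ p : ι → ℕ, (fun i => lab lb S₀ (p i)) = β → ∀ i, lab lb S₀ (p₀ i) = lab lb S₀ (p i) := by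
      intro p hp i
      rw [congrFun hp i, congrFun hp₀β i]
    have hTp : ∀ p ∈ Fintype.piFinset C, (fun i => lab lb S₀ (p i)) = β → T p := by
      intro p hp hpβ
      rw [hT]
      have h2 := (hT p₀).1 hp₀T
      refine ⟨NdC_lab hL (hP p₀ hp₀) (hP p hp) (hinj p₀ hp₀) (hinj p hp) (hlab p hpβ) h2.1, ?_⟩
      exact (GT_lab hL (hP p₀ hp₀) (hP p hp) (hinj p₀ hp₀) (hinj p hp) (hd p₀ hp₀) (hd p hp)
        (hlab p hpβ)).symm.trans h2.2
    have hNd := ((hT p₀).1 hp₀T).1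
    have h2 := hLA (UU Φ S₀) ι (σ.D S₀ J1 p₀)
      (σ.D_ok hσ (hpr p₀ hp₀) (hinj p₀ hp₀) (hd p₀ hp₀) (hJ p₀ hp₀) hNd)
      (σ.D_pas hσ (hinj p₀ hp₀) (hJ p₀ hp₀) hNd) hcard
      (σ.D_neg hσ (hinj p₀ hp₀) (hJ p₀ hp₀) hNd)
    obtain ⟨Q, hQ⟩ : ∃ Q : (prs J1 → ZMod 2) → Prop, ∀ α, Q α ↔
      finrank (ZMod 2) ((σ.D S₀ J1 p₀).So α) = r := ⟨_, fun _ => Iff.rfl⟩
    have h3 := Pool.Agent.Y356.CQ.t_EQ ι J1 C' X κ hκ
      (fun i => (Finset.card_le_card (Finset.filter_subset _ _)).trans (hCX i))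
      (HB_sub hHB fun i q => lab lb S₀ q = β i) Q
    have h4 : ((Fintype.piFinset C).filter fun p => (fun i => lab lb S₀ (p i)) = β ∧
        (T p ∧ Gd (S₀ ∪ univ.image p))) =
          ((Fintype.piFinset C').filter fun p => Q fun e => nr (p e.1.1) (p e.1.2)) := by
      rw [← hpi, Finset.filter_filter]
      refine Finset.filter_congr fun p hp => ?_
      refine and_congr_right fun hl => ?_
      rw [hgd p hp, hQ, D_lab hL (hP p₀ hp₀) (hP p hp) (hlab p hl)]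
      exact ⟨fun h => h.2, fun h => ⟨hTp p hp hl, h⟩⟩
    have h4' : ((Fintype.piFinset C).filter fun p => (fun i => lab lb S₀ (p i)) = β ∧ T p) =
          Fintype.piFinset C' := by
      rw [← hpi]
      refine Finset.filter_congr fun p hp => ?_
      exact ⟨fun h => h.1, fun h => ⟨h, hTp p hp h⟩⟩
    have h4'' : ((Fintype.piFinset C).filter fun p => (fun i => lab lb S₀ (p i)) = β ∧
        NdC Φ cl (R₀ + 1) S₀ (univ.image p)) = Fintype.piFinset C' := by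
      rw [← hpi]
      refine Finset.filter_congr fun p hp => ?_
      exact ⟨fun h => h.1, fun h => ⟨h, ((hT p).1 (hTp p hp h)).1⟩⟩
    have h5 : (((Fintype.piFinset C').card : ℕ) : ℝ) = ∏ j, ((C' j).card : ℝ) := by
      rw [Fintype.card_piFinset]
      push_cast
      rfl
    rw [h4, h4', h4'', h5]
    have h2' : |((univ.filter Q).card : ℝ) / 2 ^ (prs J1).card - lam t r| ≤ ε := by
      rw [Finset.filter_congr fun α _ => hQ α]
      exact h2
    set n : ℝ := (((Fintype.piFinset C').filter fun p =>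
          Q fun e => nr (p e.1.1) (p e.1.2)).card : ℝ) with hn
    set q : ℝ := ((univ.filter Q).card : ℝ) / 2 ^ (prs J1).card with hq
    set P : ℝ := ∏ j, ((C' j).card : ℝ) with hP
    have hP0 : 0 ≤ P := Finset.prod_nonneg fun j _ => by positivity
    have h6 : |n - lam t r * P| ≤ |n - q * P| + |q - lam t r| * P := by
      have h7 : n - lam t r * P = (n - q * P) + (q - lam t r) * P := by ring
      have h8 : |(q - lam t r) * P| = |q - lam t r| * P := by rw [abs_mul, abs_of_nonneg hP0]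
      rw [h7, ← h8]
      exact abs_add_le _ _
    have h7 : |q - lam t r| * P ≤ ε * P := mul_le_mul_of_nonneg_right h2' hP0
    have h8 : |n - q * P| ≤ R := h3
    linarith
  -- sum over the labels
  have hfib : ∀ (T : (ι → ℕ) → Prop) [DecidablePred T],
      (((Fintype.piFinset C).filter fun p => T p).card : ℝ) =
      ∑ β : ι → (S₀ → ZMod 2) × (S₀ → ZMod 2) × Λ, (((Fintype.piFinset C).filter fun p =>
        (fun i => lab lb S₀ (p i)) = β ∧ T p).card : ℝ) := by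
    intro T _
    rw [Finset.card_eq_sum_card_fiberwise (f := fun (p : ι → ℕ) (i : ι) => lab lb S₀ (p i))
      (t := univ) (fun p hp => Finset.mem_coe.2 (mem_univ _))]
    push_cast
    refine Finset.sum_congr rfl fun β hβ => ?_
    congr 2
    ext p
    simp only [Finset.mem_filter]
    tauto
  have hf1 := hfib fun p => T p ∧ Gd (S₀ ∪ univ.image p)
  have hf2 := hfib fun p => T p
  have hf3 := hfib fun p => NdC Φ cl (R₀ + 1) S₀ (univ.image p)
  have e1 : ((Fintype.piFinset C).filter fun p => (NdC Φ cl (R₀ + 1) S₀ (univ.image p) ∧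
      GT H c₀ (S₀ ∪ univ.image p)) ∧ Gd (S₀ ∪ univ.image p)) =
      (Fintype.piFinset C).filter fun p => T p ∧ Gd (S₀ ∪ univ.image p) :=
    Finset.filter_congr fun p _ => by rw [hT]
  have e2 : ((Fintype.piFinset C).filter fun p => NdC Φ cl (R₀ + 1) S₀ (univ.image p) ∧
      GT H c₀ (S₀ ∪ univ.image p)) = (Fintype.piFinset C).filter fun p => T p :=
    Finset.filter_congr fun p _ => by rw [hT]
  rw [e1, e2, hf1, hf2, hf3, Finset.mul_sum, ← Finset.sum_sub_distrib]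
  refine (Finset.abs_sum_le_sum_abs _ _).trans ?_
  refine (Finset.sum_le_sum fun β _ => h1 β).trans ?_
  rw [Finset.sum_add_distrib, ← Finset.mul_sum, Finset.sum_const, nsmul_eq_mul]
  have h6 : (((univ : Finset (ι → (S₀ → ZMod 2) × (S₀ → ZMod 2) × Λ)).card : ℕ) : ℝ) =
      (Fintype.card Λ : ℝ) ^ Fintype.card ι * 2 ^ (2 * S₀.card * Fintype.card ι) := by
    rw [Finset.card_univ, Fintype.card_fun, Fintype.card_prod, Fintype.card_prod, Fintype.card_fun,
      ZMod.card, Fintype.card_coe]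
    push_cast
    rw [mul_pow, mul_pow, ← pow_mul, two_mul, add_mul, pow_add]
    ring
  rw [h6, hR, pow_add]
  refine le_of_eq ?_
  ring

end Q44.BM
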