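import Pool.Agent.Y687.JQ.Asy
import Pool.Agent.Q44.BM.CNT
import Pool.Agent.Q44.BM.KEY
import Pool.Agent.Q44.BM.BAD

/-!
# The final asymptotics (after `Pool.Agent.Q283.GM.ASY`)
-/

set_option autoImplicit false

open scoped Classical
open Finset Filter

namespace Q44.BM

open Pool.Agent.Y703.CX (sm la jj XX eL zz kk S_SIE eL_tendsto logX_eq rpow_eL HH NN ev_eL one_le_exp
  HH_ge HH_le HH_pos kk_ge kk_le X_pos one_add_log lin_le kap zz_ge zz_pos kap_nonneg kap_pow kap_le)
open Pool.Agent.Y703.CQ (Sml sml_of sml_add sml_rpow)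
open Pool.Agent.Y687.JQ (sml_mainJ sml_sum)

/-- sets with many primes -/
theorem sml_many (Φ : Fam) {t : ℝ} (ht : t < 1) :
    Sml t fun X => (((SS Φ X).filter fun S => kk X < S.card).card : ℝ) := by
  apply sml_of (C := 2) (a := 1) ht
  filter_upwards [ev_eL 1] with X hX
  have h0 : 0 < eL X := by linarith
  have h1 := many Φ X (kk X)
  have h2 : Real.exp (2 * eL X) ≤ 2 ^ kk X := by
    have e : (2 : ℝ) ^ kk X = Real.exp (kk X * Real.log 2) := by
      rw [mul_comm, Real.exp_mul, Real.exp_log (by norm_num), Real.rpow_natCast]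
    rw [e]
    apply Real.exp_le_exp.2
    have h3 := kk_ge X
    have h4 := Real.log_two_gt_d9
    nlinarith
  have hX0 : (0 : ℝ) ≤ X := Nat.cast_nonneg _
  have h5 : (((SS Φ X).filter fun S => kk X < S.card).card : ℝ) * Real.exp (2 * eL X) ≤
      X * (2 * Real.exp (eL X)) := by
    calc _ ≤ (((SS Φ X).filter fun S => kk X < S.card).card : ℝ) * 2 ^ kk X := by gcongr
      _ ≤ X * (1 + Real.log X) := h1
      _ ≤ _ := mul_le_mul_of_nonneg_left (one_add_log h0) hX0
  have h6 : (2 : ℝ) * (X * Real.exp (-1 * eL X)) * Real.exp (2 * eL X) = X * (2 * Real.exp (eL X)) := by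
    have e : Real.exp (-1 * eL X) * Real.exp (2 * eL X) = Real.exp (eL X) := by
      rw [← Real.exp_add]; congr 1; ring
    calc _ = 2 * X * (Real.exp (-1 * eL X) * Real.exp (2 * eL X)) := by ring
      _ = _ := by rw [e]; ring
  rw [← h6] at h5
  exact le_of_mul_le_mul_right h5 (Real.exp_pos _)

/-- sets near the boundary -/
theorem sml_cut (Φ : Fam) {t : ℝ} (ht : t < 1) : Sml t fun X =>
    (((SS Φ X).filter fun S => S.card ≤ kk X ∧
    X < (∏ p ∈ sm (zz X) S, p) * ∏ p ∈ la (zz X) S, XX (HH X) (jj (HH X) p)).card : ℝ) := by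
  apply sml_of (C := 2) (a := 1) ht
  have hlog : ∀ᶠ X : ℕ in atTop, Real.exp (eL X) ≤ X := by
    filter_upwards [ev_eL 1] with X hX
    rw [← logX_eq (by linarith)]
    exact (Real.log_le_sub_one_of_pos (by exact_mod_cast X_pos (by linarith))).trans (by linarith)
  filter_upwards [ev_eL 1, lin_le (a := 1) (b := 11) (by norm_num) (by norm_num), hlog] with X hX h11 hl
  have h0 : 0 < eL X := by linarith
  have h1 := cut_count (Φ := Φ) (X := X) (z := zz X) (k := kk X) (HH_pos h0)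
  refine h1.trans ?_
  have hH := HH_ge h0
  have hHp : (0 : ℝ) < HH X := lt_of_lt_of_le (Real.exp_pos _) hH
  have hX0 : (0 : ℝ) ≤ X := Nat.cast_nonneg _
  have h2 : (X : ℝ) * kk X / HH X ≤ X * Real.exp (-1 * eL X) := by
    rw [div_le_iff₀ hHp]
    calc (X : ℝ) * kk X ≤ X * Real.exp (eL X) := by
          have := kk_le hX
          rw [one_mul] at h11
          have : (kk X : ℝ) ≤ Real.exp (eL X) := by linarith
          gcongr
      _ ≤ X * (Real.exp (-1 * eL X) * Real.exp (3 * eL X)) := by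
          rw [← Real.exp_add]
          apply mul_le_mul_of_nonneg_left _ hX0
          apply Real.exp_le_exp.2
          linarith
      _ ≤ X * Real.exp (-1 * eL X) * HH X := by
          rw [mul_assoc]
          gcongr
  have h3 : (1 : ℝ) ≤ X * Real.exp (-1 * eL X) := by
    have e : Real.exp (eL X) * Real.exp (-1 * eL X) = 1 := by
      rw [← Real.exp_add]
      have : eL X + -1 * eL X = 0 := by ring
      rw [this, Real.exp_zero]
    calc (1 : ℝ) = Real.exp (eL X) * Real.exp (-1 * eL X) := e.symm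
      _ ≤ X * Real.exp (-1 * eL X) := mul_le_mul_of_nonneg_right hl (Real.exp_pos _).le
  linarith

/-- sets with two primes in one block -/
theorem sml_coll (Φ : Fam) {t : ℝ} (ht : t < 1) : Sml t fun X => (((SS Φ X).filter fun S =>
    ¬ Set.InjOn (jj (HH X)) (la (zz X) S : Set ℕ)).card : ℝ) := by
  apply sml_of (C := 8) (a := 2) (by linarith)
  filter_upwards [ev_eL 1] with X hX
  have h0 : 0 < eL X := by linarith
  have h1 := coll_count (Φ := Φ) (X := X) (z := zz X) (HH_pos h0)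
  refine h1.trans ?_
  have hH := HH_ge h0
  have hHp : (0 : ℝ) < HH X := lt_of_lt_of_le (Real.exp_pos _) hH
  have hX0 : (0 : ℝ) ≤ X := Nat.cast_nonneg _
  rw [div_le_iff₀ hHp]
  calc 4 * (X : ℝ) * (1 + Real.log X) ≤ 4 * X * (2 * Real.exp (eL X)) := by
        have := one_add_log h0
        gcongr
    _ = 8 * (X * (Real.exp (-2 * eL X) * Real.exp (3 * eL X))) := by
        rw [← Real.exp_add]
        have : -2 * eL X + 3 * eL X = eL X := by ring
        rw [this]
        ring
    _ ≤ 8 * (X * (Real.exp (-2 * eL X) * HH X)) := by gcongr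
    _ = 8 * (X * Real.exp (-2 * eL X)) * HH X := by ring

/-- the sets with few large primes of a class -/
noncomputable def few (Φ : Fam) (X z R : ℕ) (w : ℕ → Prop) : Finset (Finset ℕ) :=
  (SS Φ X).filter fun S => ((la z S).filter fun p => w p).card < 2 * (sm z S).card + R

/-- the sets outside the regular part -/
theorem out_sub {I : Type} [Fintype I] (Φ : Fam) (cl : I → ℕ → Prop) (X z H k R : ℕ) :
    SS Φ X \ ((RR Φ X z H k).filter fun S => NdC Φ cl R (sm z S) (la z S)) ⊆
      (((((SS Φ X).filter fun S => k < S.card) ∪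
      ((SS Φ X).filter fun S => S.card ≤ k ∧
        X < (∏ p ∈ sm z S, p) * ∏ p ∈ la z S, XX H (jj H p))) ∪
      ((SS Φ X).filter fun S => ¬ Set.InjOn (jj H) (la z S : Set ℕ))) ∪
      ((SS Φ X).filter fun S => S.card ≤ k ∧ ¬ Nd Φ (sm z S ∪ ∅) (la z S))) ∪
      univ.biUnion fun e => few Φ X z R (cl e) := by
  intro S hS
  rw [Finset.mem_sdiff, Finset.mem_filter] at hS
  obtain ⟨h1, h2⟩ := hS
  by_contra hc
  rw [mem_union, mem_union, mem_union, mem_union] at hc
  simp only [few, mem_filter, mem_biUnion] at hc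
  push Not at hc
  obtain ⟨⟨⟨⟨c1, c2⟩, c3⟩, c5⟩, c6⟩ := hc
  have d1 : S.card ≤ k := c1 h1
  have d2 := c2 h1 d1
  have d3 := c3 h1
  have d5 := c5 h1 d1
  rw [union_empty] at d5
  apply h2
  refine ⟨?_, d5, fun i => c6 i (mem_univ _) h1⟩
  unfold RR
  rw [mem_filter]
  exact ⟨h1, d3, d1, d2⟩

/-- comparison -/
theorem cmp2 {P Q : Finset ℕ → Prop} [DecidablePred P] [DecidablePred Q] (T S : Finset (Finset ℕ)) (hTS : T ⊆ S) (c : ℝ) :
    |((S.filter P).card : ℝ) - c * ((S.filter Q).card : ℝ)| ≤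
      |((T.filter P).card : ℝ) - c * ((T.filter Q).card : ℝ)| + (1 + |c|) * ((S \ T).card : ℝ) := by
  have e1 : ∀ (P : Finset ℕ → Prop) [DecidablePred P],
      ((S.filter P).card : ℝ) = (T.filter P).card + ((S \ T).filter P).card := by
    intro P _
    rw [← Nat.cast_add, ← card_union_of_disjoint, ← filter_union, union_sdiff_of_subset hTS]
    exact disjoint_filter_filter (disjoint_sdiff)
  have e2 : ∀ (P : Finset ℕ → Prop) [DecidablePred P], (((S \ T).filter P).card : ℝ) ≤ ((S \ T).card : ℝ) := by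
    intro P _
    exact_mod_cast card_filter_le _ _
  have e3 : ∀ (P : Finset ℕ → Prop) [DecidablePred P], (0 : ℝ) ≤ (((S \ T).filter P).card : ℝ) :=
    fun P _ => Nat.cast_nonneg _
  rw [e1 P, e1 Q]
  have h1 : ((T.filter P).card : ℝ) + ((S \ T).filter P).card -
      c * ((T.filter Q).card + ((S \ T).filter Q).card) =
      (((T.filter P).card : ℝ) - c * (T.filter Q).card) +
        ((((S \ T).filter P).card : ℝ) - c * ((S \ T).filter Q).card) := by ring
  rw [h1]
  refine (abs_add_le _ _).trans (add_le_add le_rfl ?_)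
  refine (abs_sub _ _).trans ?_
  rw [abs_mul, abs_of_nonneg (e3 P), abs_of_nonneg (e3 Q), add_mul, one_mul]
  exact add_le_add (e2 P) (mul_le_mul_of_nonneg_left (e2 Q) (abs_nonneg c))

/-- **the law on the sets of primes** -/
theorem t_DQ {Φ : Fam} {δ : ℝ} (hΦ : Ok Φ δ) {I : Type} [Fintype I] (cl : I → ℕ → Prop)
    (hcl : ∀ i p, cl i p → Φ.P p) (hHM : ∀ i, HM (cl i)) (G1 Gd : Finset ℕ → Prop) (c : ℝ) (K : ℕ)
    (hBX : ∀ ε : ℝ, 0 < ε → ∃ R, BX Φ cl G1 Gd c ε K R) :
    Tendsto (fun X : ℕ => ((((SS Φ X).filter fun S => G1 S ∧ Gd S).card : ℝ) -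
      c * (((SS Φ X).filter G1).card : ℝ)) / ((SS Φ X).card : ℝ)) atTop (nhds 0) := by
  obtain ⟨c₀, X₀, hc, hlow⟩ := hΦ.low
  have hdp := hΦ.pos
  rw [Metric.tendsto_nhds]
  intro ε hε
  obtain ⟨C, hC1, hkey⟩ := t_KEY
  obtain ⟨R, hR⟩ := hBX (ε / 4) (by linarith)
  have s1 := sml_many Φ (t := 1 - δ) (by linarith)
  have s2 := sml_cut Φ (t := 1 - δ) (by linarith)
  have s3 := sml_coll Φ (t := 1 - δ) (by linarith)
  have s5 := sml_bad hΦ (E := ∅) fun u hu => absurd hu (Finset.notMem_empty u)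
  have s6 := sml_mainJ hC1 (t := 1 - δ) (by linarith)
  have s7 : Sml (1 - δ) fun X => ∑ e ∈ (univ : Finset I),
      ((few Φ X (zz X) R (cl e)).card : ℝ) := by
    refine sml_sum _ _ fun e he => ?_
    exact sml_few hΦ (hcl e) (hHM e) R
  have s := sml_add (sml_add (sml_add (sml_add s1 s2) s3) s5) s7
  have hc1 : 0 < 1 + |c| := by positivity
  have hδ : (0 : ℝ) < c₀ * ε / (4 * (1 + |c|)) := by positivity
  have hδ' : (0 : ℝ) < c₀ * ε / 4 := by positivity
  have hkt : ∀ n : ℕ, ∀ᶠ X : ℕ in atTop, n ≤ kk X := by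
    intro n
    filter_upwards [ev_eL (n + 1)] with X hX
    have h2 := kk_ge X
    have h0 : (0 : ℝ) ≤ n := Nat.cast_nonneg _
    have : (n : ℝ) ≤ kk X := by linarith
    exact_mod_cast this
  filter_upwards [s _ hδ, s6 _ hδ', ev_eL 1, eventually_ge_atTop X₀, hkt K] with X hX hX6 hl hX0 hkK
  have hl0 : 0 < eL X := by linarith
  have hlo := hlow X hX0
  have e00 : (-1 + δ : ℝ) = -(1 - δ) := by ring
  rw [e00, rpow_eL hl0] at hlo
  have hXp := X_pos hl0
  have hXp' : (0 : ℝ) < X := by exact_mod_cast hXp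
  have hSpos : (0 : ℝ) < ((SS Φ X).card : ℝ) := by
    refine lt_of_lt_of_le ?_ hlo
    positivity
  have hN : (HH X : ℝ) * Real.log X < NN X := by
    unfold NN
    push_cast
    exact Nat.lt_floor_add_one _
  have hmain := hkey Φ I cl G1 Gd c (ε / 4) K R (by linarith) hR X (zz X) (HH X) (kk X) (NN X)
    (kap C X) hkK hXp (HH_pos hl0) (zz_pos hl) (kap_nonneg hC1 X) (kap_pow hC1 hl) hN
  set T := (RR Φ X (zz X) (HH X) (kk X)).filter fun S =>
    NdC Φ cl R (sm (zz X) S) (la (zz X) S) with hT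
  have hTG : (RR Φ X (zz X) (HH X) (kk X)).filter
      (fun S => (NdC Φ cl R (sm (zz X) S) (la (zz X) S) ∧ G1 S) ∧ Gd S) =
        T.filter fun S => G1 S ∧ Gd S := by
    rw [hT, filter_filter]
    refine filter_congr fun S _ => ?_
    tauto
  have hTG2 : (RR Φ X (zz X) (HH X) (kk X)).filter
      (fun S => NdC Φ cl R (sm (zz X) S) (la (zz X) S) ∧ G1 S) = T.filter G1 := by
    rw [hT, filter_filter]
  rw [hTG, hTG2] at hmain
  have hTS : T ⊆ SS Φ X := (filter_subset _ _).trans (filter_subset _ _)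
  have hRS : ((RR Φ X (zz X) (HH X) (kk X)).card : ℝ) ≤ ((SS Φ X).card : ℝ) := by
    exact_mod_cast card_le_card (filter_subset _ _)
  have hcmp := cmp2 (P := fun S => G1 S ∧ Gd S) (Q := G1) T (SS Φ X) hTS c
  have hout : ((SS Φ X \ T).card : ℝ) ≤
      ((((SS Φ X).filter fun S => kk X < S.card).card : ℝ) +
      (((SS Φ X).filter fun S => S.card ≤ kk X ∧
        X < (∏ p ∈ sm (zz X) S, p) * ∏ p ∈ la (zz X) S, XX (HH X) (jj (HH X) p)).card : ℝ) +
      (((SS Φ X).filter fun S => ¬ Set.InjOn (jj (HH X)) (la (zz X) S : Set ℕ)).card : ℝ) +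
      (((SS Φ X).filter fun S => S.card ≤ kk X ∧
        ¬ Nd Φ (sm (zz X) S ∪ ∅) (la (zz X) S)).card : ℝ)) +
      ∑ e ∈ (univ : Finset I), ((few Φ X (zz X) R (cl e)).card : ℝ) := by
    have g := card_le_card (out_sub Φ cl X (zz X) (HH X) (kk X) R)
    rw [← hT] at g
    have g3 := Finset.card_biUnion_le (s := (univ : Finset I))
      (t := fun e => few Φ X (zz X) R (cl e))
    have g2 := ((g.trans (card_union_le _ _)).trans (Nat.add_le_add_right
      ((card_union_le _ _).trans (Nat.add_le_add_right ((card_union_le _ _).trans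
      (Nat.add_le_add_right (card_union_le _ _) _)) _)) _)).trans (Nat.add_le_add_left g3 _)
    exact_mod_cast g2
  have hout' : (1 + |c|) * ((SS Φ X \ T).card : ℝ) ≤
      c₀ * ε / 4 * (X * Real.exp (-(1 - δ) * eL X)) := by
    have g1 := mul_le_mul_of_nonneg_left (hout.trans hX) hc1.le
    refine g1.trans (le_of_eq ?_)
    field_simp
  have htot : |(((SS Φ X).filter fun S => G1 S ∧ Gd S).card : ℝ) -
      c * (((SS Φ X).filter G1).card : ℝ)| ≤
      ε / 4 * ((SS Φ X).card : ℝ) +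
        2 * (c₀ * ε / 4 * (X * Real.exp (-(1 - δ) * eL X))) := by
    have g1 : ε / 4 * ((RR Φ X (zz X) (HH X) (kk X)).card : ℝ) ≤
        ε / 4 * ((SS Φ X).card : ℝ) := mul_le_mul_of_nonneg_left hRS (by positivity)
    linarith
  rw [Real.dist_eq, sub_zero, abs_div, abs_of_pos hSpos, div_lt_iff₀ hSpos]
  refine lt_of_le_of_lt htot ?_
  have g2 : c₀ * ε / 4 * (X * Real.exp (-(1 - δ) * eL X)) ≤ ε / 4 * ((SS Φ X).card : ℝ) := by
    calc c₀ * ε / 4 * (X * Real.exp (-(1 - δ) * eL X)) =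
          ε / 4 * (c₀ * X * Real.exp (-(1 - δ) * eL X)) := by ring
      _ ≤ _ := mul_le_mul_of_nonneg_left hlo (by linarith)
  have g4 : 0 < ε * ((SS Φ X).card : ℝ) := by positivity
  linarith

end Q44.BM
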