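import Pool.Agent.Q44.BM.Pos
import Pool.Agent.Q283.GM.BOX

/-!
# The systems attached to a set of primes
-/

set_option autoImplicit false
set_option linter.unusedSectionVars false

open scoped Classical

namespace Q44.BM

open Finset Module
open Pool.Agent.Y703.CQ (nr sg prs HB ext)
open Pool.Agent.Y657.CQ (nr_self)
open Q44.BC

/-- the data of a system -/
structure Sys (Φ : Fam) (G F : Type) [AddCommGroup G] [Module (ZMod 2) G] [AddCommGroup F]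
    [Module (ZMod 2) F] where
  h : ℕ → F
  f : ℕ → ZMod 2
  v : F →ₗ[ZMod 2] ZMod 2
  χ : G →ₗ[ZMod 2] F →ₗ[ZMod 2] ZMod 2
  𝓛 : Submodule (ZMod 2) (G × F)
  hv : ∀ p, Φ.A p → v (h p) = vm p

variable {Φ : Fam} {G F : Type} [AddCommGroup G] [Module (ZMod 2) G] [AddCommGroup F]
    [Module (ZMod 2) F]

/-- the solutions of the system of the set `S` -/
def Sys.Sel (σ : Sys Φ G F) (S : Finset ℕ) : Submodule (ZMod 2) ((ℕ → ZMod 2) × G) where
  carrier := {w | (∀ p, ¬ (p ∈ S ∧ Φ.A p) → w.1 p = 0) ∧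
    (∀ p ∈ S, Φ.A p → ∑ q ∈ S, nr p q * (w.1 q + w.1 p) + σ.f p * w.1 p + σ.χ w.2 (σ.h p) = 0) ∧
    (w.2, ∑ q ∈ S, w.1 q • σ.h q) ∈ σ.𝓛}
  add_mem' := by
    rintro x y ⟨h1, h2, h3⟩ ⟨k1, k2, k3⟩
    refine ⟨fun p hp => ?_, fun p hp ha => ?_, ?_⟩
    · rw [Prod.fst_add, Pi.add_apply, h1 p hp, k1 p hp, add_zero]
    · have e1 := h2 p hp ha
      have e2 := k2 p hp ha
      have e4 : ∑ q ∈ S, nr p q * ((x + y).1 q + (x + y).1 p) =
          ∑ q ∈ S, nr p q * (x.1 q + x.1 p) + ∑ q ∈ S, nr p q * (y.1 q + y.1 p) := by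
        rw [← sum_add_distrib]
        refine sum_congr rfl fun q _ => ?_
        simp only [Prod.fst_add, Pi.add_apply]
        ring
      rw [e4]
      simp only [Prod.fst_add, Prod.snd_add, Pi.add_apply, map_add, LinearMap.add_apply]
      linear_combination e1 + e2
    · have e1 : ((x + y).2, ∑ q ∈ S, (x + y).1 q • σ.h q) =
          (x.2, ∑ q ∈ S, x.1 q • σ.h q) + (y.2, ∑ q ∈ S, y.1 q • σ.h q) := by
        refine Prod.ext rfl ?_
        show ∑ q ∈ S, (x + y).1 q • σ.h q = ∑ q ∈ S, x.1 q • σ.h q + ∑ q ∈ S, y.1 q • σ.h q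
        rw [← sum_add_distrib]
        exact sum_congr rfl fun q _ => add_smul _ _ _
      rw [e1]
      exact Submodule.add_mem _ h3 k3
  zero_mem' := by
    refine ⟨fun p _ => rfl, fun p _ _ => ?_, ?_⟩
    · simp
    · have e : ((0 : (ℕ → ZMod 2) × G).2, ∑ q ∈ S, (0 : (ℕ → ZMod 2) × G).1 q • σ.h q) = 0 := by
        refine Prod.ext rfl ?_
        exact sum_eq_zero fun q _ => zero_smul _ _
      rw [e]
      exact Submodule.zero_mem _
  smul_mem' := by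
    rintro c x ⟨h1, h2, h3⟩
    refine ⟨fun p hp => ?_, fun p hp ha => ?_, ?_⟩
    · rw [Prod.smul_fst, Pi.smul_apply, h1 p hp, smul_zero]
    · have e1 := h2 p hp ha
      have e4 : ∑ q ∈ S, nr p q * ((c • x).1 q + (c • x).1 p) =
          c * ∑ q ∈ S, nr p q * (x.1 q + x.1 p) := by
        rw [mul_sum]
        refine sum_congr rfl fun q _ => ?_
        simp only [Prod.smul_fst, Pi.smul_apply, smul_eq_mul]
        ring
      rw [e4]
      simp only [Prod.smul_fst, Prod.smul_snd, Pi.smul_apply, map_smul, LinearMap.smul_apply,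
        smul_eq_mul]
      linear_combination c * e1
    · have e1 : ((c • x).2, ∑ q ∈ S, (c • x).1 q • σ.h q) =
          c • (x.2, ∑ q ∈ S, x.1 q • σ.h q) := by
        refine Prod.ext rfl ?_
        show ∑ q ∈ S, (c • x).1 q • σ.h q = c • ∑ q ∈ S, x.1 q • σ.h q
        rw [smul_sum]
        exact sum_congr rfl fun q _ => mul_smul _ _ _
      rw [e1]
      exact Submodule.smul_mem _ _ h3

theorem Sys.mem_Sel {σ : Sys Φ G F} {S : Finset ℕ} {w : (ℕ → ZMod 2) × G} :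
    w ∈ σ.Sel S ↔ (∀ p, ¬ (p ∈ S ∧ Φ.A p) → w.1 p = 0) ∧
    (∀ p ∈ S, Φ.A p → ∑ q ∈ S, nr p q * (w.1 q + w.1 p) + σ.f p * w.1 p + σ.χ w.2 (σ.h p) = 0) ∧
    (w.2, ∑ q ∈ S, w.1 q • σ.h q) ∈ σ.𝓛 := Iff.rfl

/-- the active elements of the small part -/
abbrev UU (Φ : Fam) (S₀ : Finset ℕ) : Type := {u : ℕ // u ∈ S₀.filter fun u => Φ.A u}

section one

variable {ι : Type} [Fintype ι] [LinearOrder ι]

/-- the block system -/
noncomputable def Sys.D (σ : Sys Φ G F) (S₀ : Finset ℕ) (J1 : Finset ι) (p : ι → ℕ) :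
    Dt (UU Φ S₀) ι G F where
  J1 := J1
  A u u' := nr u u'
  B u k := nr u (p k)
  C k u := nr (p k) u
  f u := σ.f u + ∑ w ∈ S₀.filter (fun w => ¬ Φ.A w), nr u w + ∑ l ∈ univ.filter (fun l => l ∉ J1), nr u (p l)
  g k := σ.f (p k) + ∑ w ∈ S₀.filter (fun w => ¬ Φ.A w), nr (p k) w
  hU u := σ.h u
  hJ k := σ.h (p k)
  v := σ.v
  χ := σ.χ
  𝓛 := σ.𝓛

variable {S₀ : Finset ℕ} {J1 : Finset ι} {p : ι → ℕ}

/-- the sum over the set -/
theorem sum_all (hp : Function.Injective p) (hd : ∀ i, p i ∉ S₀) {M : Type} [AddCommMonoid M]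
    (t : ℕ → M) : ∑ q ∈ S₀ ∪ univ.image p, t q =
      ∑ u : UU Φ S₀, t u + ∑ w ∈ S₀.filter (fun w => ¬ Φ.A w), t w +
        (∑ l : J1, t (p l) + ∑ l ∈ univ.filter (fun l => l ∉ J1), t (p l)) := by
  have hdis : Disjoint S₀ (univ.image p) := by
    rw [Finset.disjoint_left]
    intro x hx hx'
    obtain ⟨i, -, rfl⟩ := Finset.mem_image.1 hx'
    exact hd i hx
  rw [Finset.sum_union hdis, Finset.sum_image fun i _ j _ hij => hp hij]
  congr 1
  · rw [← Finset.sum_filter_add_sum_filter_not S₀ (fun u => Φ.A u),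
      Finset.sum_coe_sort (S₀.filter fun u => Φ.A u) t]
  · rw [← Finset.sum_filter_add_sum_filter_not univ (fun l => l ∈ J1),
      Finset.sum_coe_sort J1 (fun l => t (p l))]
    congr 1
    refine Finset.sum_congr ?_ fun _ _ => rfl
    ext l
    simp

/-- the symbols -/
theorem nr_ext (hpr : ∀ i, (p i).Prime ∧ p i ≠ 2) (hp : Function.Injective p) {k l : ι}
    (hk : k ∈ J1) (hl : l ∈ J1) (hkl : k ≠ l) (σ : Sys Φ G F) (hJ : ∀ i, i ∈ J1 ↔ Φ.A (p i)) :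
    nr (p k) (p l) = ext (fun e : prs J1 => nr (p e.1.1) (p e.1.2)) k l +
      (if l < k then σ.v (σ.h (p k)) * σ.v (σ.h (p l)) else 0) := by
  rcases lt_or_gt_of_ne hkl with h | h
  · rw [if_neg h.asymm, add_zero,
      Pool.Agent.Y219.CQ.ext_pos J1 _ ((Pool.Agent.Y219.CQ.mem_prs J1 k l).2 ⟨hk, h.ne', fun _ => h⟩)]
  · rw [if_pos h, Pool.Agent.Y219.CQ.ext_neg J1 _
      ((Pool.Agent.Y219.CQ.mem_prs J1 l k).2 ⟨hl, h.ne', fun _ => h⟩) hk, σ.hv _ ((hJ k).1 hk),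
      σ.hv _ ((hJ l).1 hl)]
    exact nr_rec (hpr k).1 (hpr k).2 (hpr l).1 (hpr l).2 fun he => hkl (hp he)

theorem nr_ext' {k l : ι} (hk : k ∈ J1) (hl : l ∉ J1) :
    nr (p k) (p l) = ext (fun e : prs J1 => nr (p e.1.1) (p e.1.2)) k l := by
  rw [Pool.Agent.Y219.CQ.ext_pos J1 _ ((Pool.Agent.Y219.CQ.mem_prs J1 k l).2
    ⟨hk, fun h => hl (h ▸ hk), fun h => absurd h hl⟩)]

/-- the row of a large prime -/
theorem Sys.row2 (σ : Sys Φ G F) (hpr : ∀ i, (p i).Prime ∧ p i ≠ 2) (hp : Function.Injective p)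
    (hd : ∀ i, p i ∉ S₀) (hJ : ∀ i, i ∈ J1 ↔ Φ.A (p i)) (w : (ℕ → ZMod 2) × G)
    (hw : ∀ q, ¬ (q ∈ S₀ ∪ univ.image p ∧ Φ.A q) → w.1 q = 0) (k : J1) :
    (σ.D S₀ J1 p).rJ ((fun u => w.1 u, fun l : J1 => w.1 (p l), w.2) : (σ.D S₀ J1 p).E) k +
      (∑ l : J1, ext (fun e : prs J1 => nr (p e.1.1) (p e.1.2)) k l * w.1 (p l) +
      (∑ l : ι, ext (fun e : prs J1 => nr (p e.1.1) (p e.1.2)) k l) * w.1 (p k)) =
    ∑ q ∈ S₀ ∪ univ.image p, nr (p k) q * (w.1 q + w.1 (p k)) + σ.f (p k) * w.1 (p k) +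
      σ.χ w.2 (σ.h (p k)) := by
  have hA : Φ.A (p k) := (hJ k).1 k.2
  rw [sum_all (Φ := Φ) (J1 := J1) hp hd]
  show ∑ u : UU Φ S₀, nr (p k) u * (w.1 u + w.1 (p k)) +
    ∑ l : J1, (if (l : ι) < k then σ.v (σ.h (p k)) * σ.v (σ.h (p l)) else 0) *
      (w.1 (p l) + w.1 (p k)) +
    (σ.f (p k) + ∑ w ∈ S₀.filter (fun w => ¬ Φ.A w), nr (p k) w) * w.1 (p k) +
    σ.χ w.2 (σ.h (p k)) + _ = _
  have e1 : ∑ q ∈ S₀.filter (fun w => ¬ Φ.A w), nr (p k) q * (w.1 q + w.1 (p k)) =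
      (∑ w ∈ S₀.filter (fun w => ¬ Φ.A w), nr (p k) w) * w.1 (p k) := by
    rw [sum_mul]
    refine sum_congr rfl fun q hq => ?_
    rw [hw q fun h => (mem_filter.1 hq).2 h.2, zero_add]
  have e2 : ∑ l ∈ univ.filter (fun l => l ∉ J1), nr (p k) (p l) * (w.1 (p l) + w.1 (p k)) =
      (∑ l ∈ univ.filter (fun l => l ∉ J1),
        ext (fun e : prs J1 => nr (p e.1.1) (p e.1.2)) k l) * w.1 (p k) := by
    rw [sum_mul]
    refine sum_congr rfl fun l hl => ?_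
    have hl' := (mem_filter.1 hl).2
    rw [hw (p l) fun h => hl' ((hJ l).2 h.2), zero_add, nr_ext' k.2 hl']
  have e3 : ∑ l : J1, nr (p k) (p l) * (w.1 (p l) + w.1 (p k)) =
      ∑ l : J1, (if (l : ι) < k then σ.v (σ.h (p k)) * σ.v (σ.h (p l)) else 0) *
        (w.1 (p l) + w.1 (p k)) +
      (∑ l : J1, ext (fun e : prs J1 => nr (p e.1.1) (p e.1.2)) k l * w.1 (p l) +
        (∑ l : J1, ext (fun e : prs J1 => nr (p e.1.1) (p e.1.2)) k l) * w.1 (p k)) := by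
    rw [sum_mul, ← sum_add_distrib, ← sum_add_distrib]
    refine sum_congr rfl fun l _ => ?_
    by_cases hlk : (k : ι) = l
    · have h0 : w.1 (p l) + w.1 (p k) = 0 := by
        rw [hlk]
        exact CharTwo.add_self_eq_zero _
      have h1 : w.1 (p l) = w.1 (p k) := by rw [hlk]
      rw [h0, mul_zero, mul_zero, h1, zero_add]
      exact (CharTwo.add_self_eq_zero _).symm
    · rw [nr_ext hpr hp k.2 l.2 hlk σ hJ]
      ring
  have e4 : ∑ l : ι, ext (fun e : prs J1 => nr (p e.1.1) (p e.1.2)) k l =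
      ∑ l : J1, ext (fun e : prs J1 => nr (p e.1.1) (p e.1.2)) k l +
      ∑ l ∈ univ.filter (fun l => l ∉ J1), ext (fun e : prs J1 => nr (p e.1.1) (p e.1.2)) k l := by
    rw [← Finset.sum_filter_add_sum_filter_not univ (fun l => l ∈ J1),
      Finset.sum_coe_sort J1 (fun l => ext (fun e : prs J1 => nr (p e.1.1) (p e.1.2)) k l)]
    congr 1
    refine Finset.sum_congr ?_ fun _ _ => rfl
    ext l
    simp
  rw [e1, e2, e3, e4]
  ring

/-- the row of a small prime -/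
theorem Sys.row1 (σ : Sys Φ G F) (hp : Function.Injective p)
    (hd : ∀ i, p i ∉ S₀) (hJ : ∀ i, i ∈ J1 ↔ Φ.A (p i)) (w : (ℕ → ZMod 2) × G)
    (hw : ∀ q, ¬ (q ∈ S₀ ∪ univ.image p ∧ Φ.A q) → w.1 q = 0) (u : UU Φ S₀) :
    (σ.D S₀ J1 p).rU ((fun u => w.1 u, fun l : J1 => w.1 (p l), w.2) : (σ.D S₀ J1 p).E) u =
    ∑ q ∈ S₀ ∪ univ.image p, nr u q * (w.1 q + w.1 u) + σ.f u * w.1 u +
      σ.χ w.2 (σ.h u) := by
  rw [sum_all (Φ := Φ) (J1 := J1) hp hd]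
  show ∑ v : UU Φ S₀, nr u v * (w.1 v + w.1 u) + ∑ k : J1, nr u (p k) * (w.1 (p k) + w.1 u) +
    (σ.f u + ∑ w ∈ S₀.filter (fun w => ¬ Φ.A w), nr u w +
      ∑ l ∈ univ.filter (fun l => l ∉ J1), nr u (p l)) * w.1 u + σ.χ w.2 (σ.h u) = _
  have e1 : ∑ q ∈ S₀.filter (fun w => ¬ Φ.A w), nr u q * (w.1 q + w.1 u) =
      (∑ w ∈ S₀.filter (fun w => ¬ Φ.A w), nr u w) * w.1 u := by
    rw [sum_mul]
    refine sum_congr rfl fun q hq => ?_
    rw [hw q fun h => (mem_filter.1 hq).2 h.2, zero_add]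
  have e2 : ∑ l ∈ univ.filter (fun l => l ∉ J1), nr u (p l) * (w.1 (p l) + w.1 u) =
      (∑ l ∈ univ.filter (fun l => l ∉ J1), nr u (p l)) * w.1 u := by
    rw [sum_mul]
    refine sum_congr rfl fun l hl => ?_
    have hl' := (mem_filter.1 hl).2
    rw [hw (p l) fun h => hl' ((hJ l).2 h.2), zero_add]
  rw [e1, e2]
  ring

/-- the class -/
theorem Sys.row3 (σ : Sys Φ G F) (hp : Function.Injective p)
    (hd : ∀ i, p i ∉ S₀) (hJ : ∀ i, i ∈ J1 ↔ Φ.A (p i)) (w : (ℕ → ZMod 2) × G)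
    (hw : ∀ q, ¬ (q ∈ S₀ ∪ univ.image p ∧ Φ.A q) → w.1 q = 0) :
    (σ.D S₀ J1 p).sH ((fun u => w.1 u, fun l : J1 => w.1 (p l), w.2) : (σ.D S₀ J1 p).E) =
    ∑ q ∈ S₀ ∪ univ.image p, w.1 q • σ.h q := by
  rw [sum_all (Φ := Φ) (J1 := J1) hp hd]
  have e1 : ∑ q ∈ S₀.filter (fun w => ¬ Φ.A w), w.1 q • σ.h q = 0 := by
    refine sum_eq_zero fun q hq => ?_
    rw [hw q fun h => (mem_filter.1 hq).2 h.2, zero_smul]
  have e2 : ∑ l ∈ univ.filter (fun l => l ∉ J1), w.1 (p l) • σ.h (p l) = 0 := by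
    refine sum_eq_zero fun l hl => ?_
    have hl' := (mem_filter.1 hl).2
    rw [hw (p l) fun h => hl' ((hJ l).2 h.2), zero_smul]
  rw [e1, e2, add_zero, add_zero]
  rfl

/-- the restriction -/
noncomputable def Sys.rs (σ : Sys Φ G F) (S₀ : Finset ℕ) (J1 : Finset ι) (p : ι → ℕ) :
    ((ℕ → ZMod 2) × G) →ₗ[ZMod 2] (σ.D S₀ J1 p).E :=
  lm (fun w => ((fun u => w.1 u, fun l : J1 => w.1 (p l), w.2) : (σ.D S₀ J1 p).E))
    fun _ _ => rfl

theorem Sys.finrank_Sel (σ : Sys Φ G F) (hpr : ∀ i, (p i).Prime ∧ p i ≠ 2)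
    (hp : Function.Injective p) (hd : ∀ i, p i ∉ S₀) (hJ : ∀ i, i ∈ J1 ↔ Φ.A (p i)) :
    finrank (ZMod 2) (σ.Sel (S₀ ∪ univ.image p)) =
      finrank (ZMod 2) ((σ.D S₀ J1 p).So fun e => nr (p e.1.1) (p e.1.2)) := by
  set T := (σ.D S₀ J1 p).So (fun e => nr (p e.1.1) (p e.1.2)) with hT
  have h0 : ∀ w ∈ σ.Sel (S₀ ∪ univ.image p), σ.rs S₀ J1 p w ∈ T := by
    intro w hw
    rw [Sys.mem_Sel] at hw
    obtain ⟨h1, h2, h3⟩ := hw
    refine ⟨Dt.mem_NN.2 ⟨?_, funext fun u => ?_⟩, fun k => ?_⟩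
    · have e := σ.row3 hp hd hJ w h1
      show (w.2, (σ.D S₀ J1 p).sH ((fun u => w.1 u, fun l : J1 => w.1 (p l), w.2) :
        (σ.D S₀ J1 p).E)) ∈ σ.𝓛
      rw [e]
      exact h3
    · refine (σ.row1 hp hd hJ w h1 u).trans ?_
      exact h2 u (mem_union_left _ (mem_filter.1 u.2).1) (mem_filter.1 u.2).2
    · refine (σ.row2 hpr hp hd hJ w h1 k).trans ?_
      exact h2 (p k) (mem_union_right _ (mem_image_of_mem _ (mem_univ _))) ((hJ k).1 k.2)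
  refine LinearEquiv.finrank_eq (LinearEquiv.ofBijective ((σ.rs S₀ J1 p).restrict h0) ⟨?_, ?_⟩)
  · intro x y hxy
    have h1 : σ.rs S₀ J1 p x = σ.rs S₀ J1 p y := congrArg Subtype.val hxy
    have h2 : (fun u : UU Φ S₀ => x.1.1 u) = fun u : UU Φ S₀ => y.1.1 u := congrArg (fun t => t.1) h1
    have h3 : (fun l : J1 => x.1.1 (p l)) = fun l : J1 => y.1.1 (p l) := congrArg (fun t => t.2.1) h1
    have h4 : x.1.2 = y.1.2 := congrArg (fun t => t.2.2) h1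
    refine Subtype.ext (Prod.ext (funext fun n => ?_) h4)
    by_cases hn : n ∈ S₀ ∪ univ.image p ∧ Φ.A n
    · rcases Finset.mem_union.1 hn.1 with h5 | h5
      · exact congrFun h2 ⟨n, mem_filter.2 ⟨h5, hn.2⟩⟩
      · obtain ⟨i, -, rfl⟩ := Finset.mem_image.1 h5
        exact congrFun h3 ⟨i, (hJ i).2 hn.2⟩
    · rw [(Sys.mem_Sel.1 x.2).1 n hn, (Sys.mem_Sel.1 y.2).1 n hn]
  · rintro ⟨⟨a, b, g⟩, hw⟩
    set c' : ℕ → ZMod 2 := fun n => if h : n ∈ S₀.filter (fun u => Φ.A u) then a ⟨n, h⟩ else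
      if h : ∃ l : J1, p l = n then b h.choose else 0 with hc'
    have e1 : ∀ u : UU Φ S₀, c' u = a u := by
      intro u
      simp only [hc']
      rw [dif_pos u.2]
    have e2 : ∀ l : J1, c' (p l) = b l := by
      intro l
      have hex : ∃ l' : J1, p l' = p l := ⟨l, rfl⟩
      simp only [hc']
      rw [dif_neg (fun h => hd l (mem_filter.1 h).1), dif_pos hex]
      exact congrArg b (Subtype.ext (hp hex.choose_spec))
    have hr : σ.rs S₀ J1 p (c', g) = (a, b, g) :=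
      Prod.ext (funext e1) (Prod.ext (funext e2) rfl)
    have hz : ∀ q, ¬ (q ∈ S₀ ∪ univ.image p ∧ Φ.A q) → c' q = 0 := by
      intro n hn
      simp only [hc']
      rw [dif_neg, dif_neg]
      · rintro ⟨l, rfl⟩
        exact hn ⟨mem_union_right _ (mem_image_of_mem _ (mem_univ _)), (hJ l).1 l.2⟩
      · intro h
        rw [mem_filter] at h
        exact hn ⟨mem_union_left _ h.1, h.2⟩
    have hw' : σ.rs S₀ J1 p (c', g) ∈ T := by
      rw [hr]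
      exact hw
    obtain ⟨⟨w1, w2⟩, w3⟩ := hw'
    refine ⟨⟨(c', g), ?_⟩, Subtype.ext hr⟩
    rw [Sys.mem_Sel]
    refine ⟨hz, fun n hn ha => ?_, ?_⟩
    · rcases Finset.mem_union.1 hn with h1 | h1
      · have h2 := σ.row1 hp hd hJ (c', g) hz (⟨n, mem_filter.2 ⟨h1, ha⟩⟩ : UU Φ S₀)
        exact h2.symm.trans (congrFun w2 ⟨n, mem_filter.2 ⟨h1, ha⟩⟩)
      · obtain ⟨k, -, rfl⟩ := Finset.mem_image.1 h1
        have h2 := σ.row2 hpr hp hd hJ (c', g) hz ⟨k, (hJ k).2 ha⟩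
        exact h2.symm.trans (w3 ⟨k, (hJ k).2 ha⟩)
    · have h2 := σ.row3 hp hd hJ (c', g) hz
      rw [← h2]
      exact w1

end one

end Q44.BM
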